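import Pool.Agent.U514.SP.Stm

/-!
# Project SP, package POW: powers of a bilinear algorithm
-/

set_option autoImplicit false

namespace Pool.Agent.U67.SP.POW

open Finset
open Pool.Agent.U514.SP

section

variable {F X T : Type} [Field F]

/-- The `l`-th power of one of the three families of a bilinear algorithm. -/
def pw (l : ℕ) (a : T → X → X → F) : (Fin l → T) → (Fin l → X) → (Fin l → X) → F :=
  fun τ x y => ∏ κ, a (τ κ) (x κ) (y κ)

lemma pw_alg [DecidableEq X] [Fintype T] (l : ℕ) (a b c : T → X → X → F) (h : IsAlg a b c) :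
    IsAlg (pw l a) (pw l b) (pw l c) := by
  classical
  intro x z x1 y1 y2 z2
  have h1 : ∀ τ : Fin l → T, pw l c τ x z * pw l a τ x1 y1 * pw l b τ y2 z2 =
      ∏ κ, (c (τ κ) (x κ) (z κ) * a (τ κ) (x1 κ) (y1 κ) * b (τ κ) (y2 κ) (z2 κ)) := by
    intro τ
    simp only [pw, prod_mul_distrib]
  have h2 : ∑ τ : Fin l → T,
      ∏ κ, (c (τ κ) (x κ) (z κ) * a (τ κ) (x1 κ) (y1 κ) * b (τ κ) (y2 κ) (z2 κ)) =
      ∏ κ : Fin l, ∑ t : T, (c t (x κ) (z κ) * a t (x1 κ) (y1 κ) * b t (y2 κ) (z2 κ)) := by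
    rw [Finset.prod_univ_sum, Fintype.piFinset_univ]
  rw [sum_congr rfl (fun τ _ => h1 τ), h2,
    prod_congr rfl (fun κ _ => h (x κ) (z κ) (x1 κ) (y1 κ) (y2 κ) (z2 κ))]
  by_cases hh : x1 = x ∧ y1 = y2 ∧ z2 = z
  · obtain ⟨rfl, rfl, rfl⟩ := hh
    simp
  · rw [if_neg hh]
    have : ∃ κ, ¬ (x1 κ = x κ ∧ y1 κ = y2 κ ∧ z2 κ = z κ) := by
      by_contra hcon
      push Not at hcon
      exact hh ⟨funext fun κ => (hcon κ).1, funext fun κ => (hcon κ).2.1,
        funext fun κ => (hcon κ).2.2⟩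
    obtain ⟨κ, hκ⟩ := this
    exact prod_eq_zero (mem_univ κ) (if_neg hκ)

lemma nnz_pw [Fintype X] [DecidableEq X] (l : ℕ) (a : T → X → X → F) (τ : Fin l → T) :
    nnz (pw l a τ) ≤ ∏ κ, nnz (a (τ κ)) := by
  classical
  unfold nnz
  rw [← Fintype.card_piFinset]
  refine Finset.card_le_card_of_injOn (fun p κ => (p.1 κ, p.2 κ)) ?_ ?_
  · intro p hp
    have hp' : pw l a τ p.1 p.2 ≠ 0 := by simpa using hp
    have h2 : ∀ κ, a (τ κ) (p.1 κ) (p.2 κ) ≠ 0 := by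
      intro κ h0
      exact hp' (prod_eq_zero (mem_univ κ) h0)
    simp only [coe_filter, Fintype.coe_piFinset, Set.mem_pi, Set.mem_univ, Set.mem_ofPred_eq,
      forall_const, mem_univ, true_and]
    exact h2
  · intro p _ q _ hpq
    have h1 : ∀ κ, (p.1 κ, p.2 κ) = (q.1 κ, q.2 κ) := fun κ => congrFun hpq κ
    refine Prod.ext (funext fun κ => ?_) (funext fun κ => ?_)
    · exact congrArg Prod.fst (h1 κ)
    · exact congrArg Prod.snd (h1 κ)

lemma alg_transport {X' T' : Type} [DecidableEq X] [DecidableEq X'] [Fintype T] [Fintype T']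
    (eX : X' ≃ X) (eT : T' ≃ T) (a b c : T → X → X → F) (h : IsAlg a b c) :
    IsAlg (fun τ x y => a (eT τ) (eX x) (eX y)) (fun τ x y => b (eT τ) (eX x) (eX y))
      (fun τ x y => c (eT τ) (eX x) (eX y)) := by
  intro x z x1 y1 y2 z2
  have h1 := h (eX x) (eX z) (eX x1) (eX y1) (eX y2) (eX z2)
  rw [Equiv.sum_comp eT (fun τ => c τ (eX x) (eX z) * a τ (eX x1) (eX y1) * b τ (eX y2) (eX z2)),
    h1]
  simp only [EmbeddingLike.apply_eq_iff_eq]

lemma nnz_transport {X' : Type} [Fintype X] [Fintype X'] (eX : X' ≃ X) (f : X → X → F) :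
    nnz (fun x y => f (eX x) (eX y)) ≤ nnz f := by
  classical
  unfold nnz
  refine Finset.card_le_card_of_injOn (fun p => (eX p.1, eX p.2)) ?_ ?_
  · intro p hp
    simpa using hp
  · intro p _ q _ hpq
    have h1 : eX p.1 = eX q.1 := congrArg Prod.fst hpq
    have h2 : eX p.2 = eX q.2 := congrArg Prod.snd hpq
    exact Prod.ext (eX.injective h1) (eX.injective h2)

end

lemma two_pow_between (l : ℕ) (w : ℝ) (h1 : 1 ≤ w) (h2 : w ≤ 16 ^ l) :
    ∃ t : ℕ, 0 < t ∧ t ∣ 16 ^ l ∧ w ≤ t ∧ (t : ℝ) ≤ 2 * w := by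
  classical
  have h16 : (16 : ℝ) ^ l = 2 ^ (4 * l) := by
    rw [pow_mul]; norm_num
  have h16' : (16 : ℕ) ^ l = 2 ^ (4 * l) := by
    rw [pow_mul]; norm_num
  have hex : ∃ k : ℕ, w ≤ 2 ^ k := ⟨4 * l, by rw [← h16]; exact h2⟩
  have hk := Nat.find_spec hex
  have hk' : Nat.find hex ≤ 4 * l := Nat.find_min' hex (by rw [← h16]; exact h2)
  refine ⟨2 ^ Nat.find hex, by positivity, ?_, ?_, ?_⟩
  · rw [h16']; exact pow_dvd_pow 2 hk'
  · push_cast; exact hk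
  · push_cast
    rcases Nat.eq_zero_or_pos (Nat.find hex) with h0 | h0
    · rw [h0]; norm_num; linarith
    · have h3 : ¬ w ≤ 2 ^ (Nat.find hex - 1) := Nat.find_min hex (by omega)
      push Not at h3
      have h4 : (2 : ℝ) ^ (Nat.find hex) = 2 * 2 ^ (Nat.find hex - 1) := by
        rw [← pow_succ']; congr 1; omega
      rw [h4]; linarith

theorem t_POW : S_POW := by
  classical
  intro F X T _ _ _ _ a b c w halg ha hb hw l
  have cX : Fintype.card (Fin l → X) = Fintype.card X ^ l := by simp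
  have cT : Fintype.card (Fin l → T) = Fintype.card T ^ l := by simp
  let eX : Fin (Fintype.card X ^ l) ≃ (Fin l → X) := (Fintype.equivFinOfCardEq cX).symm
  let eT : Fin (Fintype.card T ^ l) ≃ (Fin l → T) := (Fintype.equivFinOfCardEq cT).symm
  have hw1 : ∀ τ : Fin l → T, (1 : ℝ) ≤ ∏ κ, w (τ κ) := by
    intro τ
    calc (1 : ℝ) = ∏ _κ : Fin l, (1 : ℝ) := by simp
      _ ≤ _ := prod_le_prod (fun _ _ => zero_le_one) (fun κ _ => (hw (τ κ)).1)
  have hw16 : ∀ τ : Fin l → T, ∏ κ, w (τ κ) ≤ (16 : ℝ) ^ l := by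
    intro τ
    calc ∏ κ, w (τ κ) ≤ ∏ _κ : Fin l, (16 : ℝ) :=
          prod_le_prod (fun κ _ => zero_le_one.trans (hw (τ κ)).1) (fun κ _ => (hw (τ κ)).2)
      _ = _ := by simp
  choose t ht0 htd htl htu using fun τ : Fin l → T =>
    two_pow_between l (∏ κ, w (τ κ)) (hw1 τ) (hw16 τ)
  have key : ∀ (a : T → X → X → F), (∀ τ, (nnz (a τ) : ℝ) ≤ w τ ^ 2) →
      ∀ τ : Fin l → T, nnz (pw l a τ) ≤ t τ ^ 2 := by
    intro a ha τ
    have h1 : (nnz (pw l a τ) : ℝ) ≤ (t τ : ℝ) ^ 2 := by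
      calc (nnz (pw l a τ) : ℝ) ≤ ((∏ κ, nnz (a (τ κ)) : ℕ) : ℝ) := by
            exact_mod_cast nnz_pw l a τ
        _ = ∏ κ, (nnz (a (τ κ)) : ℝ) := by push_cast; rfl
        _ ≤ ∏ κ, w (τ κ) ^ 2 :=
            prod_le_prod (fun κ _ => Nat.cast_nonneg _) (fun κ _ => ha (τ κ))
        _ = (∏ κ, w (τ κ)) ^ 2 := by rw [prod_pow]
        _ ≤ (t τ : ℝ) ^ 2 := by
            have := hw1 τ
            exact pow_le_pow_left₀ (by linarith) (htl τ) 2
    exact_mod_cast h1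
  refine ⟨fun τ x y => pw l a (eT τ) (eX x) (eX y), fun τ x y => pw l b (eT τ) (eX x) (eX y),
    fun τ x y => pw l c (eT τ) (eX x) (eX y), fun τ => t (eT τ),
    alg_transport eX eT _ _ _ (pw_alg l a b c halg), fun τ => ht0 _, fun τ => htd _,
    fun τ => (nnz_transport eX _).trans (key a ha _),
    fun τ => (nnz_transport eX _).trans (key b hb _), ?_⟩
  calc ∑ τ, (t (eT τ) : ℝ) = ∑ τ : Fin l → T, (t τ : ℝ) :=
        Equiv.sum_comp eT (fun τ => (t τ : ℝ))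
    _ ≤ ∑ τ : Fin l → T, 2 * ∏ κ, w (τ κ) := sum_le_sum fun τ _ => htu τ
    _ = 2 * ∑ τ : Fin l → T, ∏ κ, w (τ κ) := by rw [mul_sum]
    _ = 2 * (∑ τ, w τ) ^ l := by
        congr 1
        have h3 : ∏ _κ : Fin l, ∑ τ : T, w τ = ∑ τ : Fin l → T, ∏ κ, w (τ κ) := by
          rw [Finset.prod_univ_sum, Fintype.piFinset_univ]
        rw [← h3]; simp

end Pool.Agent.U67.SP.POW

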